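import Pool.Agent.Work.MP_9fe7bd_lc.Undec2
import Pool.Agent.Work.MP_9fe7bd_lc.Domino2

namespace Pool.Agent.Results.MP_9fe7bd_lc.HanoiDominoMSO

open Pool.Agent.Work.MP_9fe7bd_lc

/-- The Hanoi towers group on three pegs is a contracting self-similar group; the domino problem is
decidable on every Schreier graph of it; but the monadic second-order theory of the Schreier graph
of some computable ray is undecidable. -/
theorem result :
    IsSelfSimilar (Subgroup.closure (Set.range hanoi)) ∧
    IsContracting (Subgroup.closure (Set.range hanoi)) ∧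
    (∀ ξ : ℕ → Fin 3, DominoDecidable (Edge hanoi ξ)) ∧
    ∃ ξ : ℕ → Fin 3, Computable ξ ∧ ¬ MSODecidable (Edge hanoi ξ) :=
  ⟨HG_selfSimilar, HG_contracting, dominoDecidable, xi, primrec_xi.to_comp, not_MSODecidable⟩

end Pool.Agent.Results.MP_9fe7bd_lc.HanoiDominoMSO
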